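import Pool.Agent.helper33.AG.Spec

set_option autoImplicit false

namespace Pool.Agent.AG

open N1f72dd46 Filter MeasureTheory Set Pool.Agent.QZ

lemma EX_markov (I : ℝ → ℝ) (hI : Continuous I) (hI0 : ∀ a, 0 ≤ I a) (Y lam M : ℝ) (hlam : 0 < lam)
    (hint : ∫ a in Y..(Y + 1), I a ≤ M) :
    volume {a : ℝ | a ∈ Icc Y (Y + 1) ∧ lam ≤ I a} ≤ ENNReal.ofReal (M / lam) := by
  have h := mul_meas_ge_le_integral_of_nonneg (μ := volume.restrict (Icc Y (Y + 1)))
    (ae_of_all _ hI0) (hI.integrableOn_Icc) lam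
  rw [integral_Icc_eq_integral_Ioc, ← intervalIntegral.integral_of_le (by linarith)] at h
  have hmeas : MeasurableSet {x : ℝ | lam ≤ I x} := (isClosed_le continuous_const hI).measurableSet
  rw [measureReal_restrict_apply hmeas] at h
  have hset : {a : ℝ | a ∈ Icc Y (Y + 1) ∧ lam ≤ I a} = {x : ℝ | lam ≤ I x} ∩ Icc Y (Y + 1) := by
    ext a
    constructor
    · rintro ⟨h1, h2⟩; exact ⟨h2, h1⟩
    · rintro ⟨h1, h2⟩; exact ⟨h2, h1⟩
  rw [hset]
  have hfin : volume ({x : ℝ | lam ≤ I x} ∩ Icc Y (Y + 1)) ≠ ⊤ := by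
    refine ne_top_of_le_ne_top ?_ (measure_mono Set.inter_subset_right)
    rw [Real.volume_Icc]; exact ENNReal.ofReal_ne_top
  rw [← ofReal_measureReal hfin]
  apply ENNReal.ofReal_le_ofReal
  rw [le_div_iff₀ hlam, mul_comm]
  exact le_trans h hint

lemma EX_sub (u : ℝ → ℝ) (hu : Continuous u) (d r : ℝ) (h1 : 2 * d ≤ r / 2) (h2 : 0 < r) (h3 : r ≤ 1 / 8) :
    ∫ s in (r / 2)..r, u s ≤ ∫ s in (2 * d)..(1 / 8), max 0 (u s) := by
  have hc : Continuous (fun s => max 0 (u s)) := continuous_const.max hu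
  have e1 : ∫ s in (r / 2)..r, u s ≤ ∫ s in (r / 2)..r, max 0 (u s) := by
    apply intervalIntegral.integral_mono_on (by linarith) (hu.intervalIntegrable _ _)
      (hc.intervalIntegrable _ _)
    intro s _
    exact le_max_right _ _
  refine le_trans e1 ?_
  apply intervalIntegral.integral_mono_interval h1 (by linarith) h3 _ (hc.intervalIntegrable _ _)
  exact ae_of_all _ fun s => le_max_left _ _

lemma EX_cosh (d : ℝ) (hd : 0 ≤ d) : d ^ 2 ≤ 2 * (Real.cosh d - 1) := by
  have h1 : Real.cosh d = Real.cosh (2 * (d / 2)) := by congr 1; ring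
  have h2 := Real.self_le_sinh_iff.mpr (by linarith : 0 ≤ d / 2)
  rw [h1, Real.cosh_two_mul, Real.cosh_sq]
  nlinarith

/-- the algebraic core -/
lemma EX_core (u : ℝ → ℝ) (hu : Continuous u) (d r η m z s0 A : ℝ) (h1 : 2 * d ≤ r / 2) (h2 : 0 < r)
    (h3 : r ≤ 1 / 8) (hu0 : ∫ s in (r / 2)..r, u s = s0 * ((r / 2) * z - A)) (hs0 : s0 = 1 ∨ s0 = -1)
    (hA : |A - m / 2 * r| ≤ r * η / 4 * m) (hz : η * m ≤ s0 * (z - m)) :
    r * η / 4 * m ≤ ∫ s in (2 * d)..(1 / 8), max 0 (u s) := by
  refine le_trans ?_ (EX_sub u hu d r h1 h2 h3)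
  rw [hu0]
  have h4 := abs_le.mp hA
  rcases hs0 with h | h
  · rw [h] at hz ⊢
    nlinarith
  · rw [h] at hz ⊢
    nlinarith

theorem EX (hZC : ZC_stmt) (hDI : DI_stmt) (hAZ : AZ_stmt) : EX_stmt := by
  intro κ f C hκ hAvg hTB ε hε
  obtain ⟨_, _, hZcont, _, _, _, _⟩ := hZC
  obtain ⟨C1, hC1, hAZ'⟩ := hAZ f C hTB
  obtain ⟨Y0, hY0⟩ := hDI κ hκ hAvg ε hε
  refine ⟨64 * C1, max Y0 2, by linarith, ?_⟩
  intro Y d η hY hd hη hη1 hKd hKe
  have hYY0 : Y0 ≤ Y := le_trans (le_max_left _ _) hY
  have hY2 : 2 ≤ Y := le_trans (le_max_right _ _) hY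
  have hC0 : 0 < C1 := by linarith
  set r := η / (8 * C1) with hr
  have hr0 : 0 < r := by positivity
  have hrη : 8 * C1 * r = η := by rw [hr]; field_simp
  have hr8 : r ≤ 1 / 8 := by
    rw [hr, div_le_iff₀ (by positivity)]
    nlinarith
  have hdr : 8 * d ≤ r := by
    have : 64 * C1 * d ≤ 8 * C1 * r := by rw [hrη]; exact hKd
    have h2 : 8 * C1 * (8 * d) ≤ 8 * C1 * r := by linarith
    exact le_of_mul_le_mul_left h2 (by positivity)
  have hd32 : d ≤ 1 / 32 := by linarith
  obtain ⟨hD1, hD2⟩ := hY0 Y d hYY0 hd hd32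
  -- the two functions
  set I1 : ℝ → ℝ := fun a => ∫ s in (2 * d)..(1 / 8), max 0 (Z d a - Z d (a + 2 * s)) with hI1
  set I2 : ℝ → ℝ := fun a => ∫ s in (2 * d)..(1 / 8), max 0 (Z d (a - 2 * s) - Z d a) with hI2
  have hZc := hZcont d
  have hc1 : Continuous I1 := by
    apply intervalIntegral.continuous_parametric_intervalIntegral_of_continuous'
    apply continuous_const.max
    apply Continuous.sub
    · exact hZc.comp continuous_fst
    · exact hZc.comp (continuous_fst.add (continuous_const.mul continuous_snd))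
  have hc2 : Continuous I2 := by
    apply intervalIntegral.continuous_parametric_intervalIntegral_of_continuous'
    apply continuous_const.max
    apply Continuous.sub
    · exact hZc.comp (continuous_fst.sub (continuous_const.mul continuous_snd))
    · exact hZc.comp continuous_fst
  have hn1 : ∀ a, 0 ≤ I1 a := by
    intro a
    apply intervalIntegral.integral_nonneg (by linarith)
    intro s _
    exact le_max_left _ _
  have hn2 : ∀ a, 0 ≤ I2 a := by
    intro a
    apply intervalIntegral.integral_nonneg (by linarith)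
    intro s _
    exact le_max_left _ _
  set lam := r * η / 4 * (d ^ 2 * Real.exp Y) with hlam
  have hlam0 : 0 < lam := by positivity
  set M := d * Real.exp ((2 * κ - 2 + ε) * Y) with hM
  have hm1 := EX_markov I1 hc1 hn1 Y lam M hlam0 hD1
  have hm2 := EX_markov I2 hc2 hn2 Y lam M hlam0 hD2
  have hexp : Real.exp (-((1 - f) * Y)) ≤ η ^ 2 / (64 * C1) ^ 2 := by
    have e1 : Real.exp (-((1 - f) * Y)) = (Real.exp (-((1 - f) / 2) * Y)) ^ 2 := by
      rw [← Real.exp_nat_mul]
      congr 1
      push_cast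
      ring
    rw [e1, le_div_iff₀ (by positivity), ← mul_pow]
    apply pow_le_pow_left₀ (by positivity)
    rw [mul_comm]
    exact hKe
  have hmt : ∀ a : ℝ, mt d a = 2 * ((Real.cosh d - 1) * Real.exp a) := by
    intro a; unfold mt; ring
  have hmtge : ∀ a : ℝ, d ^ 2 * Real.exp a ≤ mt d a := by
    intro a
    rw [hmt]
    have := EX_cosh d hd.le
    have h2 := Real.exp_pos a
    nlinarith
  have herr : ∀ a : ℝ, Y ≤ a → C1 * d ^ 2 * (r ^ 2 * Real.exp a + Real.exp (f * a)) ≤ r * η / 4 * mt d a := by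
    intro a ha
    have h1 : Real.exp (f * a) ≤ η ^ 2 / (64 * C1) ^ 2 * Real.exp a := by
      have e1 : Real.exp (f * a) = Real.exp (-((1 - f) * a)) * Real.exp a := by
        rw [← Real.exp_add]; congr 1; ring
      rw [e1]
      apply mul_le_mul_of_nonneg_right _ (Real.exp_pos a).le
      refine le_trans (Real.exp_le_exp.mpr ?_) hexp
      have : 0 < 1 - f := by linarith [hTB.2.1]
      nlinarith
    have h2 : r ^ 2 * Real.exp a + Real.exp (f * a) ≤ 2 * r ^ 2 * Real.exp a := by
      have h3 : η ^ 2 / (64 * C1) ^ 2 ≤ r ^ 2 := by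
        rw [hr, div_pow]
        apply div_le_div_of_nonneg_left (by positivity) (by positivity)
        apply pow_le_pow_left₀ (by positivity)
        linarith
      have h4 := Real.exp_pos a
      nlinarith
    have h5 := hmtge a
    have h6 : C1 * d ^ 2 * (r ^ 2 * Real.exp a + Real.exp (f * a)) ≤ C1 * d ^ 2 * (2 * r ^ 2 * Real.exp a) :=
      mul_le_mul_of_nonneg_left h2 (by positivity)
    have h7 : C1 * d ^ 2 * (2 * r ^ 2 * Real.exp a) = r * η / 4 * (d ^ 2 * Real.exp a) := by
      rw [← hrη]; ring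
    have h8 : r * η / 4 * (d ^ 2 * Real.exp a) ≤ r * η / 4 * mt d a :=
      mul_le_mul_of_nonneg_left h5 (by positivity)
    linarith
  have hsub : {a : ℝ | a ∈ Icc Y (Y + 1) ∧ η * mt d a ≤ |Z d a - mt d a|} ⊆
      {a : ℝ | a ∈ Icc Y (Y + 1) ∧ lam ≤ I1 a} ∪ {a : ℝ | a ∈ Icc Y (Y + 1) ∧ lam ≤ I2 a} := by
    rintro a ⟨ha, hdev⟩
    have ha2 : 2 ≤ a := le_trans hY2 ha.1
    obtain ⟨hA1, hA2⟩ := hAZ' a d r ha2 hd (by linarith) hr8
    have herr' := herr a ha.1
    have hlamle : lam ≤ r * η / 4 * mt d a := by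
      have h1 := hmtge a
      have h2 : d ^ 2 * Real.exp Y ≤ d ^ 2 * Real.exp a :=
        mul_le_mul_of_nonneg_left (Real.exp_le_exp.mpr ha.1) (by positivity)
      rw [hlam]
      apply mul_le_mul_of_nonneg_left (by linarith) (by positivity)
    have hmm : mt d a / 2 * r = (Real.cosh d - 1) * Real.exp a * r := by rw [hmt]; ring
    rcases le_abs.mp hdev with h | h
    · left
      refine ⟨ha, le_trans hlamle ?_⟩
      have hcu : Continuous (fun s => Z d a - Z d (a + 2 * s)) :=
        continuous_const.sub (hZc.comp (continuous_const.add (continuous_const.mul continuous_id)))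
      have hcz : Continuous (fun s => Z d (a + 2 * s)) :=
        hZc.comp (continuous_const.add (continuous_const.mul continuous_id))
      refine EX_core (fun s => Z d a - Z d (a + 2 * s)) hcu d r η (mt d a) (Z d a) 1
        (∫ s in (r / 2)..r, Z d (a + 2 * s)) (by linarith) hr0 hr8 ?_ (Or.inl rfl) ?_ (by linarith)
      · rw [intervalIntegral.integral_sub (by simp) (hcz.intervalIntegrable _ _),
          intervalIntegral.integral_const, smul_eq_mul]
        ring
      · rw [hmm]
        exact le_trans hA1 herr'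
    · right
      refine ⟨ha, le_trans hlamle ?_⟩
      have hcz : Continuous (fun s => Z d (a - 2 * s)) :=
        hZc.comp (continuous_const.sub (continuous_const.mul continuous_id))
      have hcu : Continuous (fun s => Z d (a - 2 * s) - Z d a) := hcz.sub continuous_const
      refine EX_core (fun s => Z d (a - 2 * s) - Z d a) hcu d r η (mt d a) (Z d a) (-1)
        (∫ s in (r / 2)..r, Z d (a - 2 * s)) (by linarith) hr0 hr8 ?_ (Or.inr rfl) ?_ (by linarith)
      · rw [intervalIntegral.integral_sub (hcz.intervalIntegrable _ _) (by simp),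
          intervalIntegral.integral_const, smul_eq_mul]
        ring
      · rw [hmm]
        exact le_trans hA2 herr'
  have hfinal : M / lam + M / lam = 64 * C1 * Real.exp ((2 * κ - 3 + ε) * Y) / (η ^ 2 * d) := by
    have e1 : Real.exp ((2 * κ - 2 + ε) * Y) = Real.exp ((2 * κ - 3 + ε) * Y) * Real.exp Y := by
      rw [← Real.exp_add]; congr 1; ring
    rw [hM, hlam, e1, hr]
    have := Real.exp_pos Y
    field_simp
    ring
  refine le_trans (measure_mono hsub) (le_trans (measure_union_le _ _) ?_)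
  rw [← hfinal, ENNReal.ofReal_add (by positivity) (by positivity)]
  exact add_le_add hm1 hm2

end Pool.Agent.AG
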