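import Pool.Agent.helper33.AG.Spec

set_option autoImplicit false

namespace Pool.Agent.AG

open N1f72dd46 Filter MeasureTheory Set Pool.Agent.QZ

lemma GD_nonneg (d u : ℝ) : 0 ≤ T d u := le_max_left _ _

lemma GD_lip (d u v c : ℝ) : T d (u - c) ≤ T d (v - c) + |u - v| := by
  unfold T
  have h1 : |v - c| ≤ |u - c| + |u - v| := by
    have e : v - c = (u - c) - (u - v) := by ring
    rw [e]
    exact abs_sub _ _
  apply max_le
  · exact add_nonneg (le_max_left _ _) (abs_nonneg _)
  · have := le_max_right 0 (d - |v - c|)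
    linarith

lemma GD_zero {d u : ℝ} (h : d ≤ |u|) : T d u = 0 := by
  unfold T
  apply max_eq_left
  linarith

lemma GD_pos {d u : ℝ} (h : T d u ≠ 0) : |u| < d := by
  by_contra hc
  exact h (GD_zero (not_lt.mp hc))

lemma GD_le {d u : ℝ} (hd : 0 ≤ d) : T d u ≤ d := by
  unfold T
  apply max_le hd
  have := abs_nonneg u
  linarith

theorem GD : GD_stmt := by
  intro d τ J hd hτ hJ
  set φ : ℝ → ℝ := fun s => ∑ j ∈ J, T d (s - (2 * j + τ) * d) with hφ
  have hnn : ∀ s, 0 ≤ φ s := fun s => Finset.sum_nonneg fun j _ => GD_nonneg _ _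
  have hge : ∀ s, ∀ j ∈ J, T d (s - (2 * j + τ) * d) ≤ φ s := by
    intro s j hj
    exact Finset.single_le_sum (f := fun j : ℕ => T d (s - (2 * j + τ) * d))
      (fun i _ => GD_nonneg _ _) hj
  have key : ∀ s, φ s = 0 ∨ ∃ j ∈ J, φ s = T d (s - (2 * j + τ) * d) := by
    intro s
    by_cases h : ∃ j ∈ J, T d (s - (2 * j + τ) * d) ≠ 0
    · right
      obtain ⟨j, hj, hne⟩ := h
      refine ⟨j, hj, ?_⟩
      rw [hφ]
      apply Finset.sum_eq_single j
      · intro i _ hij
        apply GD_zero
        have h1 := GD_pos hne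
        have h2 : 2 * d ≤ |(2 * (j : ℝ) + τ) * d - (2 * i + τ) * d| := by
          have e : (2 * (j : ℝ) + τ) * d - (2 * i + τ) * d = (2 * d) * ((j : ℝ) - i) := by ring
          rw [e, abs_mul, abs_of_pos (by linarith : (0 : ℝ) < 2 * d)]
          have h3 : (1 : ℝ) ≤ |(j : ℝ) - i| := by
            have h4 : ((j : ℤ) - i) ≠ 0 := by
              intro h; apply hij; omega
            have h5 := Int.one_le_abs h4
            exact_mod_cast h5
          nlinarith
        have h3 : |(2 * (j : ℝ) + τ) * d - (2 * i + τ) * d| ≤ |s - (2 * j + τ) * d| + |s - (2 * i + τ) * d| := by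
          have e : (2 * (j : ℝ) + τ) * d - (2 * i + τ) * d
              = (s - (2 * i + τ) * d) - (s - (2 * j + τ) * d) := by ring
          rw [e]
          have h5 := abs_sub (s - (2 * (i : ℝ) + τ) * d) (s - (2 * (j : ℝ) + τ) * d)
          linarith
        linarith
      · intro h; exact absurd hj h
    · left
      push Not at h
      exact Finset.sum_eq_zero h
  have hone : ∀ u v, φ u ≤ φ v + |u - v| := by
    intro u v
    rcases key u with h | ⟨j, hj, h⟩
    · rw [h]
      exact add_nonneg (hnn v) (abs_nonneg _)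
    · rw [h]
      have h1 := GD_lip d u v ((2 * j + τ) * d)
      have h2 := hge v j hj
      linarith
  refine ⟨hnn, ?_, ?_, ?_, ?_⟩
  · intro u
    rcases key u with h | ⟨j, hj, h⟩
    · rw [h]; norm_num
    · rw [h]
      have h1 := GD_le (u := u - (2 * j + τ) * d) hd.le
      obtain ⟨hj1, hj2⟩ := hJ j hj
      have hj1' : (1 : ℝ) ≤ j := by exact_mod_cast hj1
      nlinarith
  · intro u v
    rw [one_mul, abs_le]
    have h1 := hone u v
    have h2 := hone v u
    rw [abs_sub_comm v u] at h2
    constructor <;> linarith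
  · intro u hu
    apply Finset.sum_eq_zero
    intro j hj
    apply GD_zero
    obtain ⟨hj1, hj2⟩ := hJ j hj
    have hj1' : (1 : ℝ) ≤ j := by exact_mod_cast hj1
    have h1 : (2 * (j : ℝ) + τ) * d - u ≤ |u - (2 * j + τ) * d| := by
      rw [abs_sub_comm]; exact le_abs_self _
    nlinarith
  · intro u hu
    apply Finset.sum_eq_zero
    intro j hj
    apply GD_zero
    obtain ⟨hj1, hj2⟩ := hJ j hj
    have h1 : u - (2 * (j : ℝ) + τ) * d ≤ |u - (2 * j + τ) * d| := le_abs_self _
    nlinarith

end Pool.Agent.AG
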