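import Pool.Agent.helper33.AG.Spec

set_option autoImplicit false

namespace Pool.Agent.AG

open N1f72dd46 Filter MeasureTheory Set Pool.Agent.QZ

lemma GP_nxt (p : ℕ) (hp : p.Prime) : p < nxt p ∧ (nxt p).Prime ∧ nxt p ≤ 2 * p := by
  obtain ⟨q, hq, h1, h2⟩ := Nat.exists_prime_lt_and_le_two_mul p hp.ne_zero
  have hne : {q : ℕ | p < q ∧ q.Prime}.Nonempty := ⟨q, h1, hq⟩
  have hmem := Nat.sInf_mem hne
  refine ⟨hmem.1, hmem.2, ?_⟩
  exact le_trans (Nat.sInf_le ⟨h1, hq⟩) h2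

lemma GP_nxt_le (p q : ℕ) (hq : q.Prime) (h : p < q) : nxt p ≤ q := Nat.sInf_le ⟨h, hq⟩

lemma GP_theta (p : ℕ) (x h : ℝ) (hh : 0 ≤ h) (h1 : (p : ℝ) < x) (h2 : x + h < nxt p) :
    Chebyshev.theta (x + h) = Chebyshev.theta x := by
  have hx0 : 0 ≤ x := le_trans (Nat.cast_nonneg p) h1.le
  unfold Chebyshev.theta
  apply Finset.sum_congr _ fun _ _ => rfl
  ext q
  simp only [Finset.mem_filter, Finset.mem_Ioc]
  constructor
  · rintro ⟨⟨hq0, hq1⟩, hq⟩
    refine ⟨⟨hq0, ?_⟩, hq⟩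
    by_contra hcon
    push Not at hcon
    have e1 : (q : ℝ) ≤ x + h := (Nat.le_floor_iff (by linarith)).mp hq1
    have e2 : x < q := (Nat.floor_lt hx0).mp hcon
    have e3 : p < q := by
      have : (p : ℝ) < q := lt_trans h1 e2
      exact_mod_cast this
    have e4 := GP_nxt_le p q hq e3
    have e5 : (nxt p : ℝ) ≤ q := by exact_mod_cast e4
    linarith
  · rintro ⟨⟨hq0, hq1⟩, hq⟩
    refine ⟨⟨hq0, ?_⟩, hq⟩
    exact le_trans hq1 (Nat.floor_le_floor (by linarith))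

lemma GP_piece {b ε c X0 : ℝ} (hc : 0 < c) (hX0 : 2 ≤ X0) (hbe : 0 ≤ b + ε)
    (hB : ∀ X : ℝ, X0 ≤ X → ∀ h : ℝ, 1 ≤ h → h ≤ X →
      Bad X h (X ^ (-c)) ≤ ENNReal.ofReal (X ^ (b + ε) / h))
    (Y h : ℝ) (hY : X0 ≤ Y) (hh : 1 ≤ h) (hhY : h ≤ Y) (F : Finset ℕ)
    (hF : ∀ p ∈ F, p.Prime ∧ Y < p ∧ (p : ℝ) ≤ 2 * Y ∧ 2 * h < (nxt p : ℝ) - p) :
    ∑ p ∈ F, ((nxt p : ℝ) - p) ≤ 4 * (2 * Y) ^ (b + ε) / h := by
  have hh0 : 0 < h := by linarith
  have hY0 : 0 < Y := by linarith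
  set A : Set ℝ := {x : ℝ | x ∈ Icc Y (2 * Y) ∧ h * Y ^ (-c) < |Chebyshev.theta (x + h) - Chebyshev.theta x - h|} with hA
  set B : Set ℝ := {x : ℝ | x ∈ Icc (2 * Y) (2 * (2 * Y)) ∧
    h * (2 * Y) ^ (-c) < |Chebyshev.theta (x + h) - Chebyshev.theta x - h|} with hBd
  have hsub : (⋃ p ∈ F, Ioo (p : ℝ) ((nxt p : ℝ) - h)) ⊆ A ∪ B := by
    intro x hx
    simp only [mem_iUnion, mem_Ioo, exists_prop] at hx
    obtain ⟨p, hp, h1, h2⟩ := hx
    obtain ⟨hpp, h3, h4, h5⟩ := hF p hp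
    have h6 := GP_theta p x h hh0.le h1 (by linarith)
    have h7 : (nxt p : ℝ) ≤ 2 * p := by exact_mod_cast (GP_nxt p hpp).2.2
    have h8 : |Chebyshev.theta (x + h) - Chebyshev.theta x - h| = h := by
      rw [h6, sub_self, zero_sub, abs_neg, abs_of_pos hh0]
    have h9 : ∀ Z : ℝ, 1 < Z → h * Z ^ (-c) < h := by
      intro Z hZ
      have : Z ^ (-c) < 1 := Real.rpow_lt_one_of_one_lt_of_neg hZ (by linarith)
      nlinarith
    by_cases hx2 : x ≤ 2 * Y
    · left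
      refine ⟨⟨by linarith, hx2⟩, ?_⟩
      rw [h8]
      exact h9 Y (by linarith)
    · right
      refine ⟨⟨by linarith, by linarith⟩, ?_⟩
      rw [h8]
      exact h9 (2 * Y) (by linarith)
  have hdisj : (↑F : Set ℕ).PairwiseDisjoint (fun p : ℕ => Ioo (p : ℝ) ((nxt p : ℝ) - h)) := by
    intro p hp q hq hpq
    have aux : ∀ a b : ℕ, b.Prime → a < b →
        Disjoint (Ioo (a : ℝ) ((nxt a : ℝ) - h)) (Ioo (b : ℝ) ((nxt b : ℝ) - h)) := by
      intro a b hb hab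
      rw [Set.disjoint_left]
      intro x hx hx'
      have h1 : (nxt a : ℝ) ≤ b := by exact_mod_cast GP_nxt_le a b hb hab
      have h2 := hx.2
      have h3 := hx'.1
      linarith
    rcases lt_or_gt_of_ne hpq with h | h
    · exact aux p q (hF q hq).1 h
    · exact (aux q p (hF p hp).1 h).symm
  have hmeas := measure_biUnion_finset (μ := volume) hdisj (fun p _ => measurableSet_Ioo)
  have hle : ∑ p ∈ F, volume (Ioo (p : ℝ) ((nxt p : ℝ) - h)) ≤
      ENNReal.ofReal (Y ^ (b + ε) / h) + ENNReal.ofReal ((2 * Y) ^ (b + ε) / h) := by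
    rw [← hmeas]
    refine le_trans (measure_mono hsub) (le_trans (measure_union_le A B) ?_)
    exact add_le_add (hB Y hY h hh hhY) (hB (2 * Y) (by linarith) h hh (by linarith))
  have hsum : ∑ p ∈ F, volume (Ioo (p : ℝ) ((nxt p : ℝ) - h))
      = ENNReal.ofReal (∑ p ∈ F, ((nxt p : ℝ) - h - p)) := by
    rw [ENNReal.ofReal_sum_of_nonneg]
    · refine Finset.sum_congr rfl fun p _ => ?_
      rw [Real.volume_Ioo]
    · intro p hp
      have := (hF p hp).2.2.2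
      linarith
  rw [hsum, ← ENNReal.ofReal_add (by positivity) (by positivity)] at hle
  have hle2 := (ENNReal.ofReal_le_ofReal_iff (by positivity)).mp hle
  have h1 : ∑ p ∈ F, ((nxt p : ℝ) - p) ≤ 2 * ∑ p ∈ F, ((nxt p : ℝ) - h - p) := by
    rw [Finset.mul_sum]
    apply Finset.sum_le_sum
    intro p hp
    have := (hF p hp).2.2.2
    linarith
  have h2 : Y ^ (b + ε) ≤ (2 * Y) ^ (b + ε) := Real.rpow_le_rpow hY0.le (by linarith) hbe
  have h3 : Y ^ (b + ε) / h ≤ (2 * Y) ^ (b + ε) / h := by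
    apply div_le_div_of_nonneg_right h2 hh0.le
  have h4 : 4 * (2 * Y) ^ (b + ε) / h = 4 * ((2 * Y) ^ (b + ε) / h) := by ring
  rw [h4]
  linarith

lemma GP_point (L : ℕ) (g : ℝ) (hg0 : 0 ≤ g) (hg : g ≤ 2 ^ L) :
    g ^ 2 ≤ 4 + ∑ j ∈ Finset.range L, (if 2 * (2 : ℝ) ^ j < g then 4 * 2 ^ j * g else 0) := by
  have hterm : ∀ j : ℕ, 0 ≤ (if 2 * (2 : ℝ) ^ j < g then 4 * 2 ^ j * g else 0) := by
    intro j
    split_ifs
    · positivity
    · exact le_rfl
  induction L with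
  | zero =>
    simp only [pow_zero] at hg
    simp only [Finset.range_zero, Finset.sum_empty, add_zero]
    nlinarith
  | succ L ih =>
    by_cases h : g ≤ 2 ^ L
    · rw [Finset.sum_range_succ]
      have := ih h
      have := hterm L
      linarith
    · push Not at h
      rcases Nat.eq_zero_or_pos L with hL | hL
      · subst hL
        have h1 : ∑ j ∈ Finset.range (0 + 1), (if 2 * (2 : ℝ) ^ j < g then 4 * 2 ^ j * g else 0) ≥ 0 :=
          Finset.sum_nonneg fun j _ => hterm j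
        norm_num at hg
        nlinarith
      · obtain ⟨k, rfl⟩ : ∃ k, L = k + 1 := ⟨L - 1, by omega⟩
        have h1 : (if 2 * (2 : ℝ) ^ k < g then 4 * 2 ^ k * g else 0) ≤
            ∑ j ∈ Finset.range (k + 1 + 1), (if 2 * (2 : ℝ) ^ j < g then 4 * 2 ^ j * g else 0) :=
          Finset.single_le_sum (f := fun j : ℕ => if 2 * (2 : ℝ) ^ j < g then 4 * 2 ^ j * g else 0)
            (fun j _ => hterm j) (Finset.mem_range.mpr (by omega))
        have h2 : 2 * (2 : ℝ) ^ k < g := by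
          rw [pow_succ] at h; linarith
        rw [if_pos h2] at h1
        have h3 : g ≤ 4 * 2 ^ k := by
          rw [pow_succ, pow_succ] at hg; linarith
        nlinarith

lemma GP_dyadic {b ε c X0 : ℝ} (hc : 0 < c) (hX0 : 2 ≤ X0) (hbe : 0 ≤ b + ε)
    (hB : ∀ X : ℝ, X0 ≤ X → ∀ h : ℝ, 1 ≤ h → h ≤ X →
      Bad X h (X ^ (-c)) ≤ ENNReal.ofReal (X ^ (b + ε) / h))
    (X : ℝ) (hX : 2 * X0 ≤ X) (L : ℕ) (hL : X ≤ 2 ^ L) :
    ∑ p ∈ (Finset.Ioc ⌊X / 2⌋₊ ⌊X⌋₊).filter Nat.Prime, ((nxt p : ℝ) - p) ^ 2 ≤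
      4 * X + L * (16 * X ^ (b + ε)) := by
  have hXpos : 0 < X := by linarith
  set P := (Finset.Ioc ⌊X / 2⌋₊ ⌊X⌋₊).filter Nat.Prime with hP
  have hmem : ∀ p ∈ P, p.Prime ∧ X / 2 < p ∧ (p : ℝ) ≤ 2 * (X / 2) := by
    intro p hp
    rw [hP, Finset.mem_filter, Finset.mem_Ioc] at hp
    refine ⟨hp.2, (Nat.floor_lt (by linarith)).mp hp.1.1, ?_⟩
    have := (Nat.le_floor_iff hXpos.le).mp hp.1.2
    linarith
  have hpt : ∀ p ∈ P, ((nxt p : ℝ) - p) ^ 2 ≤ 4 + ∑ j ∈ Finset.range L,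
      (if 2 * (2 : ℝ) ^ j < (nxt p : ℝ) - p then 4 * 2 ^ j * ((nxt p : ℝ) - p) else 0) := by
    intro p hp
    obtain ⟨h1, h2, h3⟩ := hmem p hp
    obtain ⟨h4, _, h5⟩ := GP_nxt p h1
    have h4' : (p : ℝ) < nxt p := by exact_mod_cast h4
    have h5' : (nxt p : ℝ) ≤ 2 * p := by exact_mod_cast h5
    apply GP_point
    · linarith
    · linarith
  refine le_trans (Finset.sum_le_sum hpt) ?_
  rw [Finset.sum_add_distrib, Finset.sum_const, nsmul_eq_mul, Finset.sum_comm]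
  have hcard : ((P.card : ℕ) : ℝ) ≤ X := by
    have h1 : P.card ≤ ⌊X⌋₊ := by
      refine le_trans (Finset.card_filter_le _ _) ?_
      rw [Nat.card_Ioc]; omega
    have h2 : ((P.card : ℕ) : ℝ) ≤ (⌊X⌋₊ : ℝ) := by exact_mod_cast h1
    exact le_trans h2 (Nat.floor_le hXpos.le)
  have hj : ∀ j ∈ Finset.range L, ∑ p ∈ P,
      (if 2 * (2 : ℝ) ^ j < (nxt p : ℝ) - p then 4 * 2 ^ j * ((nxt p : ℝ) - p) else 0) ≤
      16 * X ^ (b + ε) := by
    intro j _
    rw [← Finset.sum_filter, ← Finset.mul_sum]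
    have h2j : (1 : ℝ) ≤ 2 ^ j := one_le_pow₀ (by norm_num)
    have h2j0 : (0 : ℝ) < 2 ^ j := by positivity
    by_cases hle : (2 : ℝ) ^ j ≤ X / 2
    · have key := GP_piece hc hX0 hbe hB (X / 2) (2 ^ j) (by linarith) h2j hle
        (P.filter (fun p : ℕ => 2 * (2 : ℝ) ^ j < (nxt p : ℝ) - p)) (by
          intro p hp
          rw [Finset.mem_filter] at hp
          obtain ⟨h1, h2, h3⟩ := hmem p hp.1
          exact ⟨h1, h2, h3, hp.2⟩)
      have e : 2 * (X / 2) = X := by ring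
      rw [e] at key
      calc 4 * (2 : ℝ) ^ j * ∑ p ∈ P.filter (fun p : ℕ => 2 * (2 : ℝ) ^ j < (nxt p : ℝ) - p), ((nxt p : ℝ) - p)
          ≤ 4 * (2 : ℝ) ^ j * (4 * X ^ (b + ε) / 2 ^ j) := by
            apply mul_le_mul_of_nonneg_left key (by positivity)
        _ = 16 * X ^ (b + ε) := by field_simp; ring
    · have hemp : P.filter (fun p : ℕ => 2 * (2 : ℝ) ^ j < (nxt p : ℝ) - p) = ∅ := by
        rw [Finset.filter_eq_empty_iff]
        intro p hp hcon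
        obtain ⟨h1, h2, h3⟩ := hmem p hp
        have h5' : (nxt p : ℝ) ≤ 2 * p := by exact_mod_cast (GP_nxt p h1).2.2
        push Not at hle
        linarith
      rw [hemp, Finset.sum_empty, mul_zero]
      positivity
  have hsum := Finset.sum_le_sum hj
  rw [Finset.sum_const, Finset.card_range, nsmul_eq_mul] at hsum
  linarith

/-- the sum of the squares of the gaps -/
noncomputable def GP_S (X : ℝ) : ℝ := ∑ p ∈ (Finset.Icc 1 ⌊X⌋₊).filter Nat.Prime, ((nxt p : ℝ) - p) ^ 2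

lemma GP_S_mono {X Y : ℝ} (h : X ≤ Y) : GP_S X ≤ GP_S Y := by
  unfold GP_S
  apply Finset.sum_le_sum_of_subset_of_nonneg
  · apply Finset.filter_subset_filter
    exact Finset.Icc_subset_Icc_right (Nat.floor_le_floor h)
  · intro p _ _
    positivity

lemma GP_S_split (X : ℝ) (hX : 2 ≤ X) : GP_S X = GP_S (X / 2) +
    ∑ p ∈ (Finset.Ioc ⌊X / 2⌋₊ ⌊X⌋₊).filter Nat.Prime, ((nxt p : ℝ) - p) ^ 2 := by
  unfold GP_S
  have h1 : ⌊X / 2⌋₊ ≤ ⌊X⌋₊ := Nat.floor_le_floor (by linarith)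
  rw [← Finset.sum_union]
  · apply Finset.sum_congr _ fun _ _ => rfl
    rw [← Finset.filter_union]
    congr 1
    ext q
    simp only [Finset.mem_union, Finset.mem_Icc, Finset.mem_Ioc]
    omega
  · rw [Finset.disjoint_left]
    intro q hq hq'
    simp only [Finset.mem_filter, Finset.mem_Icc, Finset.mem_Ioc] at hq hq'
    omega

lemma GP_total {b ε c X0 : ℝ} (hc : 0 < c) (hX0 : 2 ≤ X0) (hbe : 0 ≤ b + ε)
    (hB : ∀ X : ℝ, X0 ≤ X → ∀ h : ℝ, 1 ≤ h → h ≤ X →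
      Bad X h (X ^ (-c)) ≤ ENNReal.ofReal (X ^ (b + ε) / h)) (L n : ℕ) :
    ∀ X : ℝ, 0 ≤ X → X ≤ 2 ^ L → X ≤ 2 ^ n * (2 * X0) →
      GP_S X ≤ GP_S (2 * X0) + n * (4 * X + L * (16 * X ^ (b + ε))) := by
  induction n with
  | zero =>
    intro X hX0' _ hX
    rw [pow_zero, one_mul] at hX
    have := GP_S_mono hX
    simpa using this
  | succ n ih =>
    intro X hXn hXL hX
    by_cases h : X ≤ 2 * X0
    · have h1 := GP_S_mono h
      have h2 : (0 : ℝ) ≤ ((n + 1 : ℕ) : ℝ) * (4 * X + L * (16 * X ^ (b + ε))) := by positivity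
      linarith
    · push Not at h
      have h1 := ih (X / 2) (by linarith) (by linarith) (by rw [pow_succ] at hX; linarith)
      have h2 := GP_dyadic hc hX0 hbe hB X h.le L hXL
      have h3 := GP_S_split X (by linarith)
      have h4 : (X / 2) ^ (b + ε) ≤ X ^ (b + ε) := Real.rpow_le_rpow (by linarith) (by linarith) hbe
      have h5 : (n : ℝ) * (4 * (X / 2) + L * (16 * (X / 2) ^ (b + ε))) ≤
          n * (4 * X + L * (16 * X ^ (b + ε))) := by
        apply mul_le_mul_of_nonneg_left _ (Nat.cast_nonneg n)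
        have h6 : (L : ℝ) * (16 * (X / 2) ^ (b + ε)) ≤ L * (16 * X ^ (b + ε)) := by
          apply mul_le_mul_of_nonneg_left _ (Nat.cast_nonneg L)
          linarith
        linarith
      push_cast
      rw [h3]
      linarith

lemma GP_log (δ : ℝ) (hδ : 0 < δ) : ∀ᶠ X : ℝ in atTop, ((⌈Real.logb 2 X⌉₊ : ℕ) : ℝ) ≤ X ^ δ := by
  have h1 : ∀ᶠ X : ℝ in atTop, ‖Real.log X‖ ≤ (Real.log 2 / 2) * ‖X ^ δ‖ :=
    (isLittleO_log_rpow_atTop hδ).bound (by have := Real.log_pos (one_lt_two); linarith)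
  have h2 : ∀ᶠ X : ℝ in atTop, 2 ≤ X ^ δ := (tendsto_rpow_atTop hδ).eventually_ge_atTop 2
  filter_upwards [h1, h2, eventually_ge_atTop 1] with X h1 h2 h3
  have hl2 : 0 < Real.log 2 := Real.log_pos one_lt_two
  rw [Real.norm_of_nonneg (Real.log_nonneg h3), Real.norm_of_nonneg (by positivity)] at h1
  have h4 : Real.logb 2 X ≤ X ^ δ / 2 := by
    unfold Real.logb
    rw [div_le_iff₀ hl2]
    linarith
  have h5 : 0 ≤ Real.logb 2 X := Real.logb_nonneg one_lt_two h3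
  have h6 := (Nat.ceil_lt_add_one h5).le
  linarith

theorem GP : GP_stmt := by
  intro b hb hyp ε hε
  obtain ⟨c, hc, hev⟩ := hyp (ε / 4) (by linarith)
  obtain ⟨X1, hX1⟩ := eventually_atTop.mp hev
  set X0 := max X1 2 with hX0d
  have hX0 : 2 ≤ X0 := le_max_right _ _
  have hB : ∀ X : ℝ, X0 ≤ X → ∀ h : ℝ, 1 ≤ h → h ≤ X →
      Bad X h (X ^ (-c)) ≤ ENNReal.ofReal (X ^ (b + ε / 4) / h) := by
    intro X hX
    exact hX1 X (le_trans (le_max_left _ _) hX)
  have hbe : 0 ≤ b + ε / 4 := by linarith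
  have hL := GP_log (ε / 4) (by linarith)
  have h21 : ∀ᶠ X : ℝ in atTop, 21 ≤ X ^ (ε / 4) :=
    (tendsto_rpow_atTop (by linarith)).eventually_ge_atTop 21
  filter_upwards [hL, h21, eventually_ge_atTop 1, eventually_ge_atTop (GP_S (2 * X0))] with X hL h21 hX1' hXS
  set L := ⌈Real.logb 2 X⌉₊ with hLd
  have hXL : X ≤ 2 ^ L := by
    have h1 : X = (2 : ℝ) ^ (Real.logb 2 X) := by
      rw [Real.rpow_logb (by norm_num) (by norm_num) (by linarith)]
    have h2 : (2 : ℝ) ^ (Real.logb 2 X) ≤ (2 : ℝ) ^ ((L : ℕ) : ℝ) :=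
      Real.rpow_le_rpow_of_exponent_le (by norm_num) (Nat.le_ceil _)
    rw [Real.rpow_natCast] at h2
    linarith
  have hXL2 : X ≤ 2 ^ L * (2 * X0) := by
    have : (0 : ℝ) < 2 ^ L := by positivity
    nlinarith
  have key := GP_total hc hX0 hbe hB L L X (by linarith) hXL hXL2
  have hX0' : 0 < X := by linarith
  set E := X ^ (ε / 4) with hE
  set Z := X ^ (b + ε / 4) with hZ
  have hXZ : X ≤ Z := by
    calc X = X ^ (1 : ℝ) := (Real.rpow_one X).symm
      _ ≤ Z := Real.rpow_le_rpow_of_exponent_le hX1' (by linarith)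
  have hLn : (0 : ℝ) ≤ (L : ℝ) := Nat.cast_nonneg L
  have hfin : X ^ (b + ε) = E ^ 3 * Z := by
    rw [hE, hZ, ← Real.rpow_natCast, ← Real.rpow_mul hX0'.le, ← Real.rpow_add hX0']
    congr 1
    push_cast
    ring
  have hgoal : GP_S X ≤ X ^ (b + ε) := by
    rw [hfin]
    have hZ0 : 0 < Z := by positivity
    have hE0 : 0 < E := by linarith
    have e1 : (4 * X + L * (16 * Z)) ≤ 20 * E * Z := by
      have : (L : ℝ) * (16 * Z) ≤ E * (16 * Z) := mul_le_mul_of_nonneg_right hL (by positivity)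
      have h3 : 4 * Z ≤ 4 * (E * Z) := by nlinarith
      linarith
    have e2 : (L : ℝ) * (4 * X + L * (16 * Z)) ≤ E * (20 * E * Z) := by
      apply mul_le_mul hL e1 (by positivity) hE0.le
    have e3 : GP_S (2 * X0) ≤ E * E * Z := by
      have h1 : 1 ≤ E * E := by nlinarith
      have h2 : Z ≤ E * E * Z := by nlinarith
      linarith
    have e4 : 21 * (E * E * Z) ≤ E ^ 3 * Z := by
      have : 0 < E * E * Z := by positivity
      nlinarith
    nlinarith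
  exact hgoal

end Pool.Agent.AG
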