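import Pool.Agent.helper69.AD.GS1

/-!
# Project ad, geometry module BD10: the sign of a pair of pants

Let `F, G, K` be frames of `p, q, r`, `pos a = F D(l) F⁻¹`, `pos x = G D(m) G⁻¹`,
`pos y = K D(n) K⁻¹` with `l, m, n > 0`. With `H = F⁻¹ G`, `J = F⁻¹ K` the lower left entries of
`M = D(l) H D(m) H⁻¹` and `Y = J D(n) J⁻¹` are negative. As `M Y = ± 1` and the lower left entry
of `Y⁻¹` is positive, `M Y = -1`, so that `trace M = - trace Y < 0`.
-/

open scoped MatrixGroups LinearAlgebra.Projectivization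
open Matrix UpperHalfPlane

namespace AdSBend

theorem BD10_vec_ne (H : SL(2, ℝ)) (j : Fin 2) : ![H.1 0 j, H.1 1 j] ≠ 0 := by
  intro h
  have h0 : H.1 0 j = 0 := by simpa using congrFun h 0
  have h1 : H.1 1 j = 0 := by simpa using congrFun h 1
  have hd := H.2
  rw [Matrix.det_fin_two] at hd
  fin_cases j
  · simp at h0 h1
    rw [h0, h1] at hd
    simp at hd
  · simp at h0 h1
    rw [h0, h1] at hd
    simp at hd

theorem BD10_inf (H : SL(2, ℝ)) :
    H • bInf = Projectivization.mk ℝ ![H.1 0 0, H.1 1 0] (BD10_vec_ne H 0) := by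
  unfold bInf
  rw [Projectivization.smul_mk]
  congr 1
  funext i
  change (H.1 *ᵥ ![1, 0]) i = _
  fin_cases i <;> simp [Matrix.mulVec, dotProduct, Fin.sum_univ_two]

theorem BD10_zero (H : SL(2, ℝ)) :
    H • bZero = Projectivization.mk ℝ ![H.1 0 1, H.1 1 1] (BD10_vec_ne H 1) := by
  unfold bZero
  rw [Projectivization.smul_mk]
  congr 1
  funext i
  change (H.1 *ᵥ ![0, 1]) i = _
  fin_cases i <;> simp [Matrix.mulVec, dotProduct, Fin.sum_univ_two]

/-- the lower entries of the relative frame have opposite signs -/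
theorem BD10_frame (h1 : BD1_stmt) (h2 : BD2_stmt) {F G : SL(2, ℝ)} {p q : Bd × Bd}
    (hF : IsFrame F p) (hG : IsFrame G q) (h : Cyc p.1 q.1 q.2) :
    (F⁻¹ * G).1 1 0 * (F⁻¹ * G).1 1 1 < 0 := by
  have e : Cyc bInf ((F⁻¹ * G) • bInf) ((F⁻¹ * G) • bZero) := by
    rw [← h2 F, ← mul_smul, ← mul_smul, mul_inv_cancel_left, hF.1, hG.1, hG.2]
    exact h
  rw [BD10_inf, BD10_zero] at e
  unfold bInf at e
  rw [h1] at e
  have hd := (F⁻¹ * G).2
  rw [Matrix.det_fin_two] at hd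
  set H := F⁻¹ * G
  simp only [dt, Matrix.cons_val_zero, Matrix.cons_val_one] at e
  nlinarith

/-- entries of `H D(t) H⁻¹` -/
theorem BD10_conj (H : SL(2, ℝ)) (t : ℝ) :
    (H * Dm t * H⁻¹).1 1 0 = H.1 1 0 * H.1 1 1 * (Real.exp (t / 2) - Real.exp (-(t / 2))) := by
  have e : (H * Dm t * H⁻¹).1 = H.1 * (Dm t).1 * (H⁻¹).1 := rfl
  rw [e, Matrix.SpecialLinearGroup.coe_inv, Matrix.adjugate_fin_two]
  simp only [Dm, Matrix.mul_apply, Fin.sum_univ_two, Matrix.of_apply, Matrix.cons_val_zero,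
    Matrix.cons_val_one, Matrix.cons_val', Matrix.cons_val_fin_one]
  ring

theorem BD10_trace (H : SL(2, ℝ)) (t : ℝ) :
    trc (H * Dm t * H⁻¹) = Real.exp (t / 2) + Real.exp (-(t / 2)) := by
  have e : (H * Dm t * H⁻¹).1 = H.1 * (Dm t).1 * (H⁻¹).1 := rfl
  have hd := H.2
  rw [Matrix.det_fin_two] at hd
  unfold trc
  rw [e, Matrix.SpecialLinearGroup.coe_inv, Matrix.adjugate_fin_two]
  simp only [Dm, Matrix.mul_apply, Fin.sum_univ_two, Matrix.of_apply, Matrix.cons_val_zero,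
    Matrix.cons_val_one, Matrix.cons_val', Matrix.cons_val_fin_one]
  linear_combination (Real.exp (t / 2) + Real.exp (-(t / 2))) * hd

theorem BD10_left (l : ℝ) (X : SL(2, ℝ)) :
    (Dm l * X).1 1 0 = Real.exp (-(l / 2)) * X.1 1 0 := by
  have e : (Dm l * X).1 = (Dm l).1 * X.1 := rfl
  rw [e]
  simp [Dm, Matrix.mul_apply, Fin.sum_univ_two]

theorem BD10_trc_conj (F M : SL(2, ℝ)) : trc (F * M * F⁻¹) = trc M := by
  have e : (F * M * F⁻¹).1 = F.1 * M.1 * (F⁻¹).1 := rfl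
  have hd := F.2
  rw [Matrix.det_fin_two] at hd
  unfold trc
  rw [e, Matrix.SpecialLinearGroup.coe_inv, Matrix.adjugate_fin_two]
  simp only [Matrix.mul_apply, Fin.sum_univ_two, Matrix.of_apply, Matrix.cons_val_zero,
    Matrix.cons_val_one, Matrix.cons_val', Matrix.cons_val_fin_one]
  linear_combination (M.1 0 0 + M.1 1 1) * hd

theorem BD10_pos (g : SL(2, ℝ)) : pos g = g ∨ pos g = -g := by
  unfold pos
  split_ifs
  · exact Or.inl rfl
  · exact Or.inr rfl

theorem BD10_pos_mul (a x y : SL(2, ℝ)) (h : PEq (a * x * y) 1) :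
    pos a * pos x * pos y = 1 ∨ pos a * pos x * pos y = -1 := by
  rcases BD10_pos a with ha | ha <;> rcases BD10_pos x with hx | hx <;>
    rcases BD10_pos y with hy | hy <;> rcases h with h | h <;> rw [ha, hx, hy] <;>
    simp only [neg_mul, mul_neg, neg_neg, h] <;> simp

theorem BD10 (h1 : BD1_stmt) (h2 : BD2_stmt) (h6 : BD6_stmt) (h8 : BD8_stmt)
    (h4 : BD4_stmt) : BD10_stmt := by
  intro a x y p q r ha hx hy hpq hqr hrp _ hP
  obtain ⟨F, hF⟩ := h6.1 p ha.1
  obtain ⟨G, hG⟩ := h6.1 q hx.1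
  obtain ⟨K, hK⟩ := h6.1 r hy.1
  obtain ⟨ea, la⟩ := h8.2.1 a F p ha hF
  obtain ⟨ex, lx⟩ := h8.2.1 x G q hx hG
  obtain ⟨ey, ly⟩ := h8.2.1 y K r hy hK
  have s1 := BD10_frame h1 h2 hF hG hpq.2
  have hr : Cyc p.1 r.1 r.2 := h4.2.1 _ _ _ (h4.2.1 _ _ _ hrp.1)
  have s2 := BD10_frame h1 h2 hF hK hr
  set H := F⁻¹ * G with hH
  set J := F⁻¹ * K with hJ
  have hexp : ∀ t : ℝ, 0 < t → 0 < Real.exp (t / 2) - Real.exp (-(t / 2)) := by
    intro t ht
    have : Real.exp (-(t / 2)) < Real.exp (t / 2) := Real.exp_lt_exp.mpr (by linarith)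
    linarith
  -- the product in the frame `F`
  set M : SL(2, ℝ) := Dm (len a) * (H * Dm (len x) * H⁻¹) with hM
  set Y : SL(2, ℝ) := J * Dm (len y) * J⁻¹ with hY
  have m1 : M.1 1 0 < 0 := by
    rw [hM, BD10_left, BD10_conj]
    have := mul_neg_of_neg_of_pos s1 (hexp _ lx)
    exact mul_neg_of_pos_of_neg (Real.exp_pos _) this
  have y1 : Y.1 1 0 < 0 := by
    rw [hY, BD10_conj]
    exact mul_neg_of_neg_of_pos s2 (hexp _ ly)
  have e1 : pos a * pos x = F * M * F⁻¹ := by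
    rw [ea, ex, hM, hH]
    group
  have e2 : pos y = F * Y * F⁻¹ := by
    rw [ey, hY, hJ]
    group
  have e3 : pos a * pos x * pos y = F * (M * Y) * F⁻¹ := by
    rw [e1, e2]
    group
  have hinv : ∀ Z : SL(2, ℝ), (Z⁻¹).1 1 0 = - Z.1 1 0 := by
    intro Z
    rw [Matrix.SpecialLinearGroup.coe_inv, Matrix.adjugate_fin_two]
    simp
  have hneg : ∀ Z : SL(2, ℝ), (-Z).1 = -Z.1 := fun Z => Matrix.SpecialLinearGroup.coe_neg Z
  have htr : trc M = - trc Y := by
    rcases BD10_pos_mul a x y hP with h | h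
    · exfalso
      have e4 : M * Y = 1 := by
        have : M * Y = F⁻¹ * (pos a * pos x * pos y) * F := by rw [e3]; group
        rw [this, h]
        group
      have e5 : M = Y⁻¹ := eq_inv_of_mul_eq_one_left e4
      rw [e5, hinv] at m1
      linarith
    · have e4 : M * Y = -1 := by
        have : M * Y = F⁻¹ * (pos a * pos x * pos y) * F := by rw [e3]; group
        rw [this, h]
        simp
      have e5 : M = -Y⁻¹ := by
        have : (-M) * Y = 1 := by rw [neg_mul, e4, neg_neg]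
        rw [← eq_inv_of_mul_eq_one_left this, neg_neg]
      unfold trc
      rw [e5, hneg, Matrix.SpecialLinearGroup.coe_inv, Matrix.adjugate_fin_two]
      simp
  have hY2 : trc Y = Real.exp (len y / 2) + Real.exp (-(len y / 2)) := by
    rw [hY, BD10_trace]
  rw [e1, BD10_trc_conj, htr, hY2]
  have a1 := Real.exp_pos (len y / 2)
  have a2 := Real.exp_pos (-(len y / 2))
  linarith

end AdSBend
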