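import Pool.Agent.helper69.AD.GS3

/-!
# Project ad, geometry module BR1: lifts of a marked structure
-/

open scoped MatrixGroups LinearAlgebra.Projectivization
open Matrix UpperHalfPlane

namespace AdSBend

theorem BR1_out (g : PSL(2, ℝ)) : ∃ k : SL(2, ℝ), (k : PSL(2, ℝ)) = g :=
  ⟨Quotient.out g, Quotient.out_eq g⟩

theorem BR1 : BR1_stmt := by
  intro Γ h
  classical
  choose o ho using BR1_out
  refine ⟨fun γ => if hγ : γ ∈ Γ then o (h.hol ⟨γ, hγ⟩) else 1, ⟨h.bd_cyc, ?_⟩, ?_⟩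
  · intro γ hγ x
    have e := h.bd_equivariant ⟨γ, hγ⟩ x
    have e2 : o (h.hol ⟨γ, hγ⟩) • h.bd x = ((o (h.hol ⟨γ, hγ⟩) : SL(2, ℝ)) : PSL(2, ℝ)) • h.bd x :=
      rfl
    simp only [dif_pos hγ]
    rw [e2, ho (h.hol ⟨γ, hγ⟩)]
    exact e
  · intro γ
    simp only [dif_pos γ.2]
    exact ho _

end AdSBend
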