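import Pool.Agent.helper69.AD.GS5

/-!
# Project ad, module FD1: a closed geodesic crossing the leaves under the twist deformation
-/

open scoped MatrixGroups LinearAlgebra.Projectivization
open Matrix UpperHalfPlane

namespace AdSBend

/-- integer recursion with signs -/
theorem FD1_signs (s : ℤ → ℤˣ) : ∃ ε : ℤ → ℤˣ, ∀ i, ε (i + 1) = ε i * s i := by
  refine ⟨fun i => (∏ j ∈ Finset.Ico 0 i, s j) * (∏ j ∈ Finset.Ico i 0, s j), ?_⟩
  intro i
  rcases le_or_gt 0 i with h | h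
  · have e1 : Finset.Ico 0 (i + 1) = insert i (Finset.Ico 0 i) := by
      ext j
      simp only [Finset.mem_Ico, Finset.mem_insert]
      omega
    have e2 : Finset.Ico (i + 1) 0 = ∅ := by
      ext j
      simp only [Finset.mem_Ico, Finset.notMem_empty, iff_false]
      omega
    have e3 : Finset.Ico i 0 = ∅ := by
      ext j
      simp only [Finset.mem_Ico, Finset.notMem_empty, iff_false]
      omega
    simp only [e1, e2, e3, Finset.prod_empty, mul_one]
    rw [Finset.prod_insert (by simp), mul_comm]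
  · have e1 : Finset.Ico i 0 = insert i (Finset.Ico (i + 1) 0) := by
      ext j
      simp only [Finset.mem_Ico, Finset.mem_insert]
      omega
    have e2 : Finset.Ico 0 (i + 1) = ∅ := by
      ext j
      simp only [Finset.mem_Ico, Finset.notMem_empty, iff_false]
      omega
    have e3 : Finset.Ico 0 i = ∅ := by
      ext j
      simp only [Finset.mem_Ico, Finset.notMem_empty, iff_false]
      omega
    simp only [e1, e2, e3, Finset.prod_empty, one_mul]
    rw [Finset.prod_insert (by simp)]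
    have : s i * s i = 1 := Int.units_mul_self (s i)
    rw [mul_comm (s i), mul_assoc, this, mul_one]

/-- a sign times a matrix -/
def FD1_sg (e : ℤˣ) (g : SL(2, ℝ)) : SL(2, ℝ) := if e = 1 then g else -g

theorem FD1_sg_one (g : SL(2, ℝ)) : FD1_sg 1 g = g := by simp [FD1_sg]

theorem FD1_sg_neg (g : SL(2, ℝ)) : FD1_sg (-1) g = -g := by
  unfold FD1_sg
  rw [if_neg (by decide)]

theorem FD1_sg_mul (e e' : ℤˣ) (g h : SL(2, ℝ)) :
    (FD1_sg e g)⁻¹ * FD1_sg e' h = FD1_sg (e * e') (g⁻¹ * h) := by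
  have hneg : ∀ x : SL(2, ℝ), (-x)⁻¹ = -x⁻¹ := fun x => by
    rw [inv_eq_iff_mul_eq_one]
    simp
  rcases Int.units_eq_one_or e with rfl | rfl <;> rcases Int.units_eq_one_or e' with rfl | rfl <;>
    simp [FD1_sg_one, FD1_sg_neg, hneg]

theorem FD1_sg_peq (e e' : ℤˣ) (g : SL(2, ℝ)) : PEq (FD1_sg e g) (FD1_sg e' g) := by
  unfold PEq
  rcases Int.units_eq_one_or e with rfl | rfl <;> rcases Int.units_eq_one_or e' with rfl | rfl <;>
    simp [FD1_sg_one, FD1_sg_neg]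

theorem FD1_sg_left (e : ℤˣ) (g h : SL(2, ℝ)) : FD1_sg e (g * h) = g * FD1_sg e h := by
  rcases Int.units_eq_one_or e with rfl | rfl <;> simp [FD1_sg_one, FD1_sg_neg]

theorem FD1_act {Γ : Subgroup SL(2, ℝ)} {f : Bd ≃ Bd} {r : SL(2, ℝ) → SL(2, ℝ)}
    (h : IsConjBy Γ f r) {g : SL(2, ℝ)} (hg : g ∈ Γ) (m : ℤ) (x : Bd) :
    f (g ^ m • x) = (r g) ^ m • f x := by
  induction m using Int.induction_on generalizing x with
  | zero => simp
  | succ k ih =>
    rw [_root_.zpow_add_one, _root_.zpow_add_one, mul_smul, mul_smul, ih, h.2 g hg]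
  | pred k ih =>
    rw [_root_.zpow_sub_one, _root_.zpow_sub_one, mul_smul, mul_smul, ih]
    congr 1
    rw [eq_inv_smul_iff, ← h.2 g hg, smul_inv_smul]

theorem FD1_per {n : ℕ} {B : ℤ → Bd × Bd} {g : SL(2, ℝ)}
    (h : ∀ i, B (i + n + 1) = ga g (B i)) (m j : ℤ) :
    B (j + m * (n + 1)) = ga (g ^ m) (B j) := by
  induction m using Int.induction_on generalizing j with
  | zero => simp [ga]
  | succ k ih =>
    have e : j + ((k : ℤ) + 1) * (n + 1) = (j + k * (n + 1)) + n + 1 := by ring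
    rw [e, h, ih]
    simp only [ga]
    rw [← mul_smul, ← mul_smul, ← _root_.zpow_one_add, add_comm 1 (k : ℤ)]
  | pred k ih =>
    have e : j + (-(k : ℤ)) * (n + 1) = (j + (-(k : ℤ) - 1) * (n + 1)) + n + 1 := by ring
    have h1 := ih j
    rw [e, h] at h1
    have h2 : B (j + (-(k : ℤ) - 1) * (n + 1)) =
        ga g⁻¹ (ga g (B (j + (-(k : ℤ) - 1) * (n + 1)))) := by
      simp [ga]
    rw [h2, h1]
    simp only [ga]
    rw [← mul_smul, ← mul_smul, ← _root_.zpow_neg_one, ← _root_.zpow_add]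
    congr 3 <;> ring_nf

theorem FD1_RDR (t : ℝ) : Rm * Dm (-t) * Rm⁻¹ = Dm t := by
  have e : (Rm * Dm (-t) * Rm⁻¹).1 = Rm.1 * (Dm (-t)).1 * (Rm⁻¹).1 := rfl
  apply Subtype.ext
  rw [e, Matrix.SpecialLinearGroup.coe_inv, Matrix.adjugate_fin_two]
  ext i j
  fin_cases i <;> fin_cases j <;>
    simp [Rm, Dm, Matrix.mul_apply, Fin.sum_univ_two] <;> ring_nf

theorem FD1_frames (h6 : BD6_stmt) (h9 : BD9_stmt) (h11 : BD11_stmt)
    {Γ : Subgroup SL(2, ℝ)} {f : Bd ≃ Bd} {r : SL(2, ℝ) → SL(2, ℝ)} (hr : IsConjBy Γ f r)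
    {n : ℕ} {B : ℤ → Bd × Bd} {g : SL(2, ℝ)} (hg : g ∈ Γ) (hne : ∀ i, (B i).1 ≠ (B i).2)
    (hB : ∀ i, B (i + n + 1) = ga g (B i)) (hI : ∀ i, Inside (B i) (B (i + 1))) :
    ∃ H : ℤ → SL(2, ℝ), (∀ i, IsFrame (H i) (f (B i).1, f (B i).2)) ∧
      (∀ i, PosMat ((H i)⁻¹ * H (i + 1))) ∧ (∀ i, PEq (H (i + n + 1)) (r g * H i)) := by
  have hF : ∀ i, ∃ F, IsFrame F (f (B i).1, f (B i).2) := fun i =>
    h6.1 _ (fun h => hne i (f.injective h))
  choose F hF using hF
  set N : ℤ := (n : ℤ) + 1 with hN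
  have hN0 : N ≠ 0 := by omega
  set K : ℤ → SL(2, ℝ) := fun i => (r g) ^ (i / N) * F (i % N) with hK
  have hKf : ∀ i, IsFrame (K i) (f (B i).1, f (B i).2) := by
    intro i
    have e1 : B i = ga (g ^ (i / N)) (B (i % N)) := by
      rw [← FD1_per hB]
      congr 1
      have := Int.emod_add_mul_ediv i N
      rw [← hN, mul_comm]
      exact this.symm
    have e2 := h6.2.2.2.2.2.1 (F (i % N)) ((r g) ^ (i / N)) _ (hF (i % N))
    have e3 : f (B i).1 = (r g) ^ (i / N) • f (B (i % N)).1 := by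
      rw [← FD1_act hr hg]
      exact congrArg (fun z : Bd × Bd => f z.1) e1
    have e4 : f (B i).2 = (r g) ^ (i / N) • f (B (i % N)).2 := by
      rw [← FD1_act hr hg]
      exact congrArg (fun z : Bd × Bd => f z.2) e1
    rw [e3, e4]
    exact e2
  have hKp : ∀ i, K (i + n + 1) = r g * K i := by
    intro i
    have e1 : (i + n + 1) / N = i / N + 1 := by
      have : i + n + 1 = i + 1 * N := by rw [hN]; ring
      rw [this, Int.add_mul_ediv_right _ _ hN0]
    have e2 : (i + n + 1) % N = i % N := by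
      have : i + n + 1 = i + 1 * N := by rw [hN]; ring
      rw [this, Int.add_mul_emod_self_right]
    simp only [hK]
    rw [e1, e2, add_comm, _root_.zpow_one_add, mul_assoc]
  have hs : ∀ i, ∃ s : ℤˣ, PosMat (FD1_sg s ((K i)⁻¹ * K (i + 1))) := by
    intro i
    have hI' : Inside (f (B i).1, f (B i).2) (f (B (i + 1)).1, f (B (i + 1)).2) :=
      ((h11 Γ f r hr).2.2.2.1 _ _).2 (hI i)
    rcases (h9 _ _ _ _ (hKf i) (hKf (i + 1))).1 hI' with h | h
    · exact ⟨1, by rwa [FD1_sg_one]⟩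
    · exact ⟨-1, by rwa [FD1_sg_neg]⟩
  choose s hs using hs
  obtain ⟨ε, hε⟩ := FD1_signs s
  refine ⟨fun i => FD1_sg (ε i) (K i), ?_, ?_, ?_⟩
  · intro i
    show IsFrame (FD1_sg (ε i) (K i)) _
    rcases Int.units_eq_one_or (ε i) with h | h <;> rw [h]
    · rw [FD1_sg_one]
      exact hKf i
    · rw [FD1_sg_neg]
      exact h6.2.2.2.2.2.2 _ _ (hKf i)
  · intro i
    show PosMat ((FD1_sg (ε i) (K i))⁻¹ * FD1_sg (ε (i + 1)) (K (i + 1)))
    rw [FD1_sg_mul, hε, ← mul_assoc, Int.units_mul_self, one_mul]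
    exact hs i
  · intro i
    show PEq (FD1_sg (ε (i + n + 1)) (K (i + n + 1))) (r g * FD1_sg (ε i) (K i))
    rw [hKp, ← FD1_sg_left]
    exact FD1_sg_peq _ _ _

theorem FD1_cp (H : ℤ → SL(2, ℝ)) (t : ℤ → ℝ) (Y : ℤ → SL(2, ℝ))
    (h : ∀ k, Y (k + 1) = Y k * (H (k + 1) * Dm (t (k + 1)) * (H (k + 1))⁻¹)) (i : ℤ) (n : ℕ) :
    Y (i + n) * H (i + n) = (Y i * H i) * cp (fun k => (H k)⁻¹ * H (k + 1)) t i n := by
  induction n with
  | zero => simp [cp]
  | succ n ih =>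
    have e : i + ((n + 1 : ℕ) : ℤ) = (i + n) + 1 := by push_cast; ring
    rw [e, h]
    simp only [cp]
    rw [← mul_assoc (Y i * H i), ← ih]
    group

theorem FD1 (h6 : BD6_stmt) (h8 : BD8_stmt) (h9 : BD9_stmt) (h11 : BD11_stmt) (hG1 : GM1_stmt)
    (hP3 : PN3_stmt) (hP4 : PN4_stmt) (hP5 : PN5_stmt) (hC1 : CH1_stmt) (hT1 : TW1_stmt)
    (hT2 : TW2_stmt) : FD1_stmt := by
  intro Γ hΓ S f r z₀ hr hz₀ q hq hl
  obtain ⟨n, B, hB1, hB2, hB3, hB4, hB5⟩ := hC1 Γ hΓ S q hq hl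
  have hgq := hG1 Γ hΓ q hq
  have hne : ∀ i, (B i).1 ≠ (B i).2 := fun i => (S.closed _ (hB1 i).1).1
  obtain ⟨H, hH1, hH2, hH3⟩ := FD1_frames h6 h9 h11 hr hgq.1 hne hB4
    (fun i => hB3 i (i + 1) (by omega))
  refine ⟨n, B, H, hB1, hB5, hB4, hH1, hH2, hH3, ?_⟩
  intro T A hT1' hT2' hA i z hz
  have hatt : ∀ p ∈ S.L, Attracts (r (gen Γ p)) (f p.1, f p.2) := by
    intro p hp
    have hg := hG1 Γ hΓ p (S.closed p hp)
    exact (h11 Γ f r hr).2.2.2.2.1 _ hg.1 p hg.2.1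
  have hpr : IsPRep Γ r := (h11 Γ f r hr).2.2.2.2.2
  obtain ⟨-, hTw⟩ := hT2 Γ hΓ S r T z₀ hpr (fun p hp => (h8.2.2.2.1 _).2 ⟨_, hatt p hp⟩)
    hT1' hT2' hz₀
  obtain ⟨-, hTw1, hTw2, -, -⟩ := hTw A hA
  refine ⟨?_, ?_⟩
  · -- the closed geodesic
    have hz' : ∀ k : ℤ, ∃ w, S.Near (B k) w := fun k => (hP3 Γ hΓ S _ (hB1 k).1).1
    choose w hw using hz'
    have hsame : ∀ k, ∀ z, S.Near (B k) z → A z = A (w k) := by
      intro k z hz
      exact hA.1.1 z (w k) hz.1 (hw k).1 ((hP3 Γ hΓ S _ (hB1 k).1).2.2.1 z (w k) hz (hw k))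
    have hstep : ∀ k, A (w (k + 1)) =
        A (w k) * (H (k + 1) * Dm (T (B (k + 1))) * (H (k + 1))⁻¹) := by
      intro k
      have hL : sw (B (k + 1)) ∈ S.L := S.swap _ (hB1 (k + 1)).1
      have h1 : S.Near (sw (B (k + 1))) (w k) :=
        (hP4 Γ hΓ S _ (hB1 k).1 _ hL (w k) (hw k)).2 (Or.inr (hB2 k))
      have h2 : S.Across (sw (B (k + 1))) (w k) (w (k + 1)) :=
        (hP3 Γ hΓ S _ hL).2.1 _ _ h1 (hw (k + 1))
      have h3 := hA.1.2 (w k) (w (k + 1)) _ (hw k).1 (hw (k + 1)).1 h2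
      rw [h3]
      congr 1
      have h4 : IsFrame (H (k + 1) * Rm) (f (sw (B (k + 1))).1, f (sw (B (k + 1))).2) :=
        h6.2.2.2.2.1 _ _ (hH1 (k + 1))
      have h5 := (hT1.1 _ _ _ (-T (sw (B (k + 1)))) (hatt _ hL) h4).1
      have h6' : T (sw (B (k + 1))) = T (B (k + 1)) := hT2' _ (hB1 (k + 1)).1
      show twS (r (gen Γ (sw (B (k + 1))))) (-T (sw (B (k + 1)))) = _
      rw [h5, h6', _root_.mul_inv_rev, ← FD1_RDR (T (B (k + 1)))]
      group
    have h1 := FD1_cp H (fun k => T (B k)) (fun k => A (w k)) hstep i (n + 1)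
    -- the translate of `z`
    have hgz : S.Near (B (i + ((n + 1 : ℕ) : ℤ))) (gen Γ q • z) := by
      have := (hP5 Γ S).2.2.2.2.2.1 _ hgq.1 _ _ hz
      have e : i + ((n + 1 : ℕ) : ℤ) = i + n + 1 := by push_cast; ring
      rw [e, hB4]
      exact this
    have h2 : A (w (i + ((n + 1 : ℕ) : ℤ))) = A (gen Γ q • z) := (hsame _ _ hgz).symm
    have h3 : A (w i) = A z := (hsame _ _ hz).symm
    simp only [h2, h3] at h1
    have h4 := hTw1 (gen Γ q) hgq.1 z hz.1
    have e : i + ((n + 1 : ℕ) : ℤ) = i + n + 1 := by push_cast; ring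
    rw [e] at h1
    have h5 := hH3 i
    -- `A (g z) * r g * (A z)⁻¹ = ± (A z H) cp (A z H)⁻¹`
    have h6' : PEq (A (gen Γ q • z) * r (gen Γ q) * (A z)⁻¹)
        ((A z * H i) * cp (fun k => (H k)⁻¹ * H (k + 1)) (fun k => T (B k)) i (n + 1) *
            (A z * H i)⁻¹) := by
      rw [← h1]
      rcases h5 with h5 | h5
      · left
        rw [h5]
        group
      · right
        rw [h5]
        simp only [mul_neg, neg_mul, neg_neg]
        group
    unfold PEq at h4 h6' ⊢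
    rcases h4 with h4 | h4 <;> rcases h6' with h6' | h6'
    · left; rw [← h4, h6']
    · right; rw [← h4, h6']
    · right; rw [← h6', h4, neg_neg]
    · left
      have : A (gen Γ q • z₀) * r (gen Γ q) = -(A (gen Γ q • z) * r (gen Γ q) * (A z)⁻¹) := by
        rw [h4, neg_neg]
      rw [this, h6', neg_neg]
  · have h1 := hTw2 (B i) (hB1 i).1 z hz
    obtain ⟨h2, -⟩ := h8.2.1 _ _ _ (hatt _ (hB1 i).1) (hH1 i)
    have h3 : A z * H i * Dm (len (r (gen Γ (B i)))) * (A z * H i)⁻¹ =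
        A z * pos (r (gen Γ (B i))) * (A z)⁻¹ := by
      rw [h2]
      group
    rw [h3]
    have h4 : pos (r (gen Γ (B i))) = r (gen Γ (B i)) ∨
        pos (r (gen Γ (B i))) = - r (gen Γ (B i)) := by
      unfold pos
      split_ifs
      · exact Or.inl rfl
      · exact Or.inr rfl
    unfold PEq at h1 ⊢
    rcases h4 with h4 | h4 <;> rw [h4]
    · exact h1
    · simp only [mul_neg, neg_mul, neg_neg]
      exact h1.symm

end AdSBend
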